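import Mathlib

/-!
# Large matchings in integral domination graphs under top-k ballots: the conjecture is false

We build, for every `ε > 0`, a profile with `n` voters and `m` candidates and a number
`k ≥ (1 - ε) m` such that for every candidate `a` and every set `S` of voters for which the
certified domination graph `G_k(a)` has a perfect matching on `S` one has `|S| < ε (n k / m)`.
The case `ε = 1` is the negated form of Q1.

Construction.  There are `G` groups of voters, `0, ..., G - 1`, and candidates `a_0, ..., a_{G-1}`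
and `q = k - 1` further candidates `z_0, ..., z_{q-1}`.  A voter of group `g` has the ranking
`a_g > a_{g-1} > ... > a_0 > z_0 > ... > z_{q-1} > a_{g+1} > ... > a_{G-1}`.
Group `h` has `(G+1)! / (G - h + 1)` voters.  A potential argument shows that a set with a perfect
matching in `G_k(a_h)` has at most `(G + 1)!` elements, and that it is empty for `G_k(z_j)`; the
total number of voters is `(G+1)! (1/2 + 1/3 + ... + 1/(G+1))`.
-/

namespace Pool.Agent.Results.MP_5491e1_lc.UnboundedFailure

open Finset

/-- A preference profile with voters `V` and candidates `C`: voter `i` has the strict linear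
order `pref i`, and `pref i a b` means that `i` ranks `a` above `b` (`a ≻_i b`). -/
structure Profile (V C : Type) where
  /-- `pref i a b` : voter `i` ranks `a` above `b`. -/
  pref : V → C → C → Prop
  /-- each `pref i` is a strict linear order -/
  strict : ∀ i, IsStrictTotalOrder C (pref i)

variable {V C : Type}

/-- `P.IsTop i t`: the candidate `t` is the one that voter `i` ranks first, `t = top(i)`. -/
def Profile.IsTop (P : Profile V C) (i : V) (t : C) : Prop :=
  ∀ c, c ≠ t → P.pref i t c

/-- `P.Listed k i a`: the candidate `a` is among the `k` candidates that voter `i` ranks highest,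
`a ∈ L_i`; that is, fewer than `k` candidates are ranked above `a` by `i`. -/
def Profile.Listed (P : Profile V C) (k : ℕ) (i : V) (a : C) : Prop :=
  {c | P.pref i c a}.ncard < k

/-- `(i, j)` is an edge of the certified domination graph `G_k(a)`: `top(j) = a`, or `a ∈ L_i` and
voter `i` does not rank `top(j)` above `a`. -/
def Profile.Edge (P : Profile V C) (k : ℕ) (a : C) (i j : V) : Prop :=
  ∃ t, P.IsTop j t ∧ (t = a ∨ (P.Listed k i a ∧ ¬ P.pref i t a))

/-- `G_k(a)` has a perfect matching on `S`: a bijection `M : S → S` such that `(i, M i)` is an edge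
of `G_k(a)` for every `i ∈ S`. -/
def Profile.PerfectMatchingOn (P : Profile V C) (k : ℕ) (a : C) (S : Finset V) : Prop :=
  ∃ M : S ≃ S, ∀ i : S, P.Edge k a (i : V) (M i : V)

/-! ### The potential argument -/

/-- Weak duality: a potential `φ` and weights `z` with `1 ≤ z i + φ i - φ (M i)` bound `|S|`. -/
lemma card_le_of_potential (S : Finset V) (M : S ≃ S) (z φ : V → ℤ)
    (h : ∀ i : S, 1 ≤ z i + φ i - φ (M i)) : (S.card : ℤ) ≤ ∑ i ∈ S, z i := by
  classical
  have h1 : ∑ i : S, (1 : ℤ) ≤ ∑ i : S, (z i + φ i - φ (M i)) :=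
    Finset.sum_le_sum fun i _ => h i
  have h2 : ∑ i : S, φ (M i : V) = ∑ i : S, φ (i : V) :=
    Equiv.sum_comp M (fun i : S => φ (i : V))
  have h3 : ∑ i : S, (z i + φ i - φ (M i)) = ∑ i : S, z (i : V) := by
    rw [Finset.sum_sub_distrib, Finset.sum_add_distrib, h2]; ring
  have h4 : ∑ i : S, z (i : V) = ∑ i ∈ S, z i := Finset.sum_coe_sort S z
  have h5 : ∑ i : S, (1 : ℤ) = S.card := by simp
  rw [← h4, ← h3, ← h5]; exact h1

/-! ### The profile -/

/-- Position (0 is the first place) of candidate `c` in the ranking of a voter of group `g`.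
Candidates `c < G` are the `a_c`, the others are the `z_{c - G}`; there are `q` of the latter. -/
def pos (G q g c : ℕ) : ℕ :=
  if c < G then (if c ≤ g then g - c else c + q) else g + 1 + (c - G)

lemma pos_inj {G q g c d : ℕ} (_hg : g < G) (hc : c < G + q) (hd : d < G + q)
    (h : pos G q g c = pos G q g d) : c = d := by
  unfold pos at h
  split_ifs at h <;> omega

/-- The profile attached to a group assignment. -/
def prof (G q : ℕ) {V : Type} (grp : V → Fin G) : Profile V (Fin (G + q)) where
  pref i a b := pos G q (grp i) a < pos G q (grp i) b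
  strict i :=
    { trichotomous := by
        intro a b hab hba
        exact Fin.ext (pos_inj (grp i).2 a.2 b.2 (le_antisymm (not_lt.mp hba) (not_lt.mp hab)))
      irrefl := fun a => lt_irrefl _
      trans := fun a b c h1 h2 => lt_trans h1 h2 }

variable {G q : ℕ}

lemma pref_iff (grp : V → Fin G) (i : V) (a b : Fin (G + q)) :
    (prof G q grp).pref i a b ↔ pos G q (grp i) a < pos G q (grp i) b := Iff.rfl

/-- The top candidate of a voter of group `g` is `a_g`. -/
lemma isTop_val (grp : V → Fin G) {j : V} {t : Fin (G + q)} (h : (prof G q grp).IsTop j t) :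
    t.val = (grp j).val := by
  by_contra hne
  have hlt : (grp j).val < G + q := lt_of_lt_of_le (grp j).2 (Nat.le_add_right _ _)
  have h1 := h ⟨(grp j).val, hlt⟩ (by intro h2; apply hne; rw [← h2])
  rw [pref_iff] at h1
  have h2 : pos G q (grp j) (⟨(grp j).val, hlt⟩ : Fin (G + q)) = 0 := by
    unfold pos; simp
  omega

/-- A candidate `a_h` is not in the list of `k = q + 1` candidates of a voter of group `g < h`. -/
lemma not_listed (grp : V → Fin G) {i : V} {a : Fin (G + q)} (ha : a.val < G)
    (hi : (grp i).val < a.val) : ¬ (prof G q grp).Listed (q + 1) i a := by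
  unfold Profile.Listed
  rw [not_lt]
  -- the `q + 1` candidates `a_g, z_0, ..., z_{q-1}` are above `a`
  let f : Fin (q + 1) → Fin (G + q) := fun x =>
    if h : x.val < q then ⟨G + x.val, by omega⟩ else ⟨(grp i).val, by have := (grp i).2; omega⟩
  have hf : Function.Injective f := by
    intro x y hxy
    have h1 := congrArg Fin.val hxy
    have hg := (grp i).2
    have hx := x.2
    have hy := y.2
    apply Fin.ext
    simp only [f] at h1
    split_ifs at h1 <;> simp at h1 <;> omega
  have hsub : Set.range f ⊆ {c | (prof G q grp).pref i c a} := by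
    rintro _ ⟨x, rfl⟩
    show pos G q (grp i) (f x) < pos G q (grp i) a
    have hx := x.2
    have hg := (grp i).2
    simp only [f]
    unfold pos
    split_ifs <;> simp at * <;> omega
  have hcard : (Set.range f).ncard = q + 1 := by
    rw [← Set.image_univ, Set.ncard_image_of_injective _ hf, Set.ncard_univ]
    simp
  calc q + 1 = (Set.range f).ncard := hcard.symm
    _ ≤ _ := Set.ncard_le_ncard hsub (Set.toFinite _)

/-- Bound for the candidates `z_j`. -/
lemma card_z (grp : V → Fin G) (a : Fin (G + q)) (ha : G ≤ a.val) (S : Finset V)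
    (h : (prof G q grp).PerfectMatchingOn (q + 1) a S) : S.card = 0 := by
  obtain ⟨M, hM⟩ := h
  have key := card_le_of_potential S M (fun _ => 0) (fun i => (G : ℤ) - (grp i).val) (by
    intro i
    obtain ⟨t, ht, hta⟩ := hM i
    have htv := isTop_val grp ht
    have h1 := (grp (i : V)).2
    have h2 := (grp (M i : V)).2
    rcases hta with h3 | ⟨_, h3⟩
    · have := congrArg Fin.val h3; omega
    · rw [pref_iff, not_lt] at h3
      unfold pos at h3
      rw [htv] at h3
      simp only [h2, if_true] at h3
      split_ifs at h3 <;> omega)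
  rw [Finset.sum_const_zero] at key
  omega

/-- Bound for the candidates `a_h`. -/
lemma card_a [Fintype V] (grp : V → Fin G) (a : Fin (G + q)) (h : Fin G) (ha : a.val = h.val)
    (S : Finset V) (hS : (prof G q grp).PerfectMatchingOn (q + 1) a S) :
    S.card ≤ (G - h.val + 1) * (univ.filter fun i => grp i = h).card := by
  classical
  obtain ⟨M, hM⟩ := hS
  have hh := h.2
  let φ : V → ℤ := fun i =>
    if (grp i).val = h.val then 0 else if (grp i).val < h.val then 1 else
      (G : ℤ) + 1 - (grp i).val
  let z : V → ℤ := fun i => if grp i = h then (G : ℤ) - h.val + 1 else 0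
  have key := card_le_of_potential S M z φ (by
    intro i
    obtain ⟨t, ht, hta⟩ := hM i
    have htv := isTop_val grp ht
    have h1 := (grp (i : V)).2
    have h2 := (grp (M i : V)).2
    have hz : z i = if (grp (i : V)).val = h.val then (G : ℤ) - h.val + 1 else 0 := by
      simp only [z, Fin.ext_iff]
    rw [hz]
    simp only [φ]
    rcases hta with h3 | ⟨h4, h3⟩
    · have h5 := congrArg Fin.val h3
      have h6 : (grp (M i : V)).val = h.val := by omega
      simp only [h6, if_true]
      split_ifs <;> omega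
    · have h7 : h.val ≤ (grp (i : V)).val := by
        by_contra hlt
        exact not_listed grp (by omega) (by omega) h4
      rw [pref_iff, not_lt] at h3
      unfold pos at h3
      rw [htv, ha] at h3
      simp only [h2, hh, h7, if_true] at h3
      split_ifs at h3 ⊢ <;> omega)
  have hz2 : ∑ i ∈ S, z i ≤ ∑ i : V, z i := by
    apply Finset.sum_le_sum_of_subset_of_nonneg (Finset.subset_univ S)
    intro i _ _
    simp only [z]
    split_ifs <;> omega
  have hz3 : ∑ i : V, z i = ((G : ℤ) - h.val + 1) * (univ.filter fun i => grp i = h).card := by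
    simp only [z]
    rw [← Finset.sum_filter, Finset.sum_const]
    simp [mul_comm]
  have hz4 : ((G - h.val + 1 : ℕ) : ℤ) = (G : ℤ) - h.val + 1 := by
    have : h.val ≤ G := le_of_lt hh
    push_cast [Nat.cast_sub this]; ring
  have : (S.card : ℤ) ≤ (((G - h.val + 1) * (univ.filter fun i => grp i = h).card : ℕ) : ℤ) := by
    rw [Nat.cast_mul, hz4]
    linarith
  exact_mod_cast this

/-! ### The theorem -/

/-- Group `h` has `(G + 1)! / (G - h + 1)` voters. -/
def size (G h : ℕ) : ℕ := (G + 1).factorial / (G - h + 1)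

lemma size_mul {G h : ℕ} : (G - h + 1) * size G h = (G + 1).factorial :=
  Nat.mul_div_cancel' (Nat.dvd_factorial (Nat.succ_pos _) (by omega))

lemma sum_size (G : ℕ) :
    ((∑ h : Fin G, size G h : ℕ) : ℝ) =
      (G + 1).factorial * ((∑ i ∈ range (G + 1), (1 / ((i : ℝ) + 1))) - 1) := by
  have h1 : ∀ h ∈ range G, ((size G h : ℕ) : ℝ) =
      (G + 1).factorial * (1 / (((G - 1 - h : ℕ) : ℝ) + 1 + 1)) := by
    intro h hh
    have hh' := Finset.mem_range.mp hh
    have h2 := @size_mul G h
    have h3 : ((G - h + 1 : ℕ) : ℝ) * (size G h : ℕ) = (G + 1).factorial := by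
      exact_mod_cast h2
    have h4 : ((G - 1 - h : ℕ) : ℝ) + 1 + 1 = ((G - h + 1 : ℕ) : ℝ) := by
      have : G - h + 1 = G - 1 - h + 1 + 1 := by omega
      rw [this]; push_cast; ring
    have h5 : (0 : ℝ) < ((G - h + 1 : ℕ) : ℝ) := by exact_mod_cast Nat.succ_pos _
    rw [h4, ← h3]; field_simp
  rw [Fin.sum_univ_eq_sum_range (fun h => size G h) G, Nat.cast_sum, Finset.sum_congr rfl h1,
    ← Finset.mul_sum, Finset.sum_range_succ' (fun i => 1 / ((i : ℝ) + 1))]
  rw [Finset.sum_range_reflect (fun j => 1 / ((j : ℝ) + 1 + 1)) G]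
  simp

/-- For every `ε > 0` there are `n, m, k` with `k ≥ (1 - ε) m` and a profile of `n` voters over
`m` candidates such that every `S` with a perfect matching in some `G_k(a)` has
`|S| < ε (n k / m)`.  For `ε = 1` this is the negated form of Q1. -/
theorem result : ∀ ε : ℝ, 0 < ε → ∃ n m k : ℕ, 1 ≤ n ∧ 1 ≤ m ∧ 1 ≤ k ∧ k ≤ m ∧
    (1 - ε) * m ≤ k ∧ ∃ P : Profile (Fin n) (Fin m), ∀ (a : Fin m) (S : Finset (Fin n)),
      P.PerfectMatchingOn k a S → (S.card : ℝ) < ε * (n * k / m) := by
  classical
  intro ε hε
  -- choose `G`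
  obtain ⟨N, hN⟩ := (Filter.tendsto_atTop.mp
    Real.tendsto_sum_range_one_div_nat_succ_atTop (2 / ε + 2)).exists_forall_of_atTop
  obtain ⟨G, hG1, hG⟩ : ∃ G : ℕ, 1 ≤ G ∧
      2 / ε + 2 ≤ ∑ i ∈ range (G + 1), (1 / ((i : ℝ) + 1)) :=
    ⟨N + 1, by omega, hN (N + 1 + 1) (by omega)⟩
  -- choose `q`
  obtain ⟨q0, hq0⟩ := exists_nat_ge ((G : ℝ) / ε)
  obtain ⟨q, hqG, hqε⟩ : ∃ q : ℕ, G ≤ q ∧ (G : ℝ) / ε ≤ q :=
    ⟨max G q0, le_max_left _ _, le_trans hq0 (by exact_mod_cast le_max_right _ _)⟩
  -- the voters
  let W : Type := Σ h : Fin G, Fin (size G h)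
  let n : ℕ := Fintype.card W
  have hn : n = ∑ h : Fin G, size G h := by
    simp [n, W, Fintype.card_sigma]
  let e : Fin n ≃ W := (Fintype.equivFin W).symm
  let grp : Fin n → Fin G := fun i => (e i).1
  have hfib : ∀ h : Fin G, (univ.filter fun i => grp i = h).card = size G h := by
    intro h
    have h1 : (univ.filter fun i => grp i = h).card
        = (univ.filter fun w : W => w.1 = h).card := by
      apply Finset.card_bij (fun i _ => e i)
      · intro i hi; simpa [grp] using hi
      · intro i _ j _ hij; exact e.injective hij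
      · intro w hw; exact ⟨e.symm w, by simpa [grp] using hw, by simp⟩
    have h2 : (univ.filter fun w : W => w.1 = h).card = (univ : Finset (Fin (size G h))).card := by
      symm
      apply Finset.card_bij (fun x _ => (⟨h, x⟩ : W))
      · intro x _; simp
      · intro x _ y _ hxy; simpa using hxy
      · rintro ⟨h', x⟩ hw
        simp only [Finset.mem_filter, Finset.mem_univ, true_and] at hw
        subst hw
        exact ⟨x, by simp, rfl⟩
    rw [h1, h2]; simp
  -- the bound
  have hbound : ∀ (a : Fin (G + q)) (S : Finset (Fin n)),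
      (prof G q grp).PerfectMatchingOn (q + 1) a S → S.card ≤ (G + 1).factorial := by
    intro a S hS
    rcases lt_or_ge a.val G with ha | ha
    · have := card_a grp a ⟨a.val, ha⟩ rfl S hS
      rw [hfib ⟨a.val, ha⟩] at this
      rwa [size_mul] at this
    · rw [card_z grp a ha S hS]; exact Nat.zero_le _
  have hnR : (n : ℝ) = (G + 1).factorial *
      ((∑ i ∈ range (G + 1), (1 / ((i : ℝ) + 1))) - 1) := by
    rw [hn]; exact sum_size G
  have hfact : (0 : ℝ) < (G + 1).factorial := by exact_mod_cast Nat.factorial_pos _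
  have hn2 : (G + 1).factorial * (2 / ε) < (n : ℝ) := by
    rw [hnR]; apply mul_lt_mul_of_pos_left _ hfact; linarith
  have hnpos : (0 : ℝ) < n := lt_trans (by positivity) hn2
  refine ⟨n, G + q, q + 1, ?_, by omega, by omega, by omega, ?_, prof G q grp, ?_⟩
  · exact_mod_cast hnpos
  · push_cast
    have h1 : (G : ℝ) ≤ ε * q := by
      rw [div_le_iff₀ hε] at hqε; linarith
    have h2 : 0 ≤ ε * (G : ℝ) := by positivity
    nlinarith
  · intro a S hS
    have h1 : (S.card : ℝ) ≤ (G + 1).factorial := by exact_mod_cast hbound a S hS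
    have hm : (0 : ℝ) < ((G + q : ℕ) : ℝ) := by
      have : 0 < G + q := by omega
      exact_mod_cast this
    have h2 : (1 / 2 : ℝ) ≤ ((q + 1 : ℕ) : ℝ) / ((G + q : ℕ) : ℝ) := by
      rw [le_div_iff₀ hm]
      have : ((G + q : ℕ) : ℝ) ≤ 2 * ((q + 1 : ℕ) : ℝ) := by
        have : G + q ≤ 2 * (q + 1) := by omega
        exact_mod_cast this
      linarith
    calc (S.card : ℝ) ≤ (G + 1).factorial := h1
      _ = ε * (((G + 1).factorial * (2 / ε)) * (1 / 2)) := by field_simp
      _ < ε * ((n : ℝ) * (1 / 2)) := by
          apply mul_lt_mul_of_pos_left _ hε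
          apply mul_lt_mul_of_pos_right hn2 (by norm_num)
      _ ≤ ε * ((n : ℝ) * (((q + 1 : ℕ) : ℝ) / ((G + q : ℕ) : ℝ))) := by
          apply mul_le_mul_of_nonneg_left _ hε.le
          exact mul_le_mul_of_nonneg_left h2 hnpos.le
      _ = ε * ((n : ℝ) * ((q + 1 : ℕ) : ℝ) / ((G + q : ℕ) : ℝ)) := by ring

/-- Corollary (not part of the hand-in): the statement of Q1 is false. -/
theorem q1_false : ¬ ∀ n m k : ℕ, 1 ≤ n → 1 ≤ m → 1 ≤ k → k ≤ m →
    ∀ P : Profile (Fin n) (Fin m), ∃ (a : Fin m) (S : Finset (Fin n)),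
      (n : ℝ) * k / m ≤ S.card ∧ P.PerfectMatchingOn k a S := by
  intro h
  obtain ⟨n, m, k, hn, hm, hk, hkm, _, P, hP⟩ := result 1 one_pos
  obtain ⟨a, S, h1, h2⟩ := h n m k hn hm hk hkm P
  have := hP a S h2
  linarith

end Pool.Agent.Results.MP_5491e1_lc.UnboundedFailure
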